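import Pool.Agent.Y674.HY.Stm2
import Pool.Agent.Y961.HY.Setup

/-!
# Galois theory of the two-covering

Job HY2-GALA of helper674.
-/

set_option autoImplicit false

namespace Pool.Agent.Y109.HY

open Polynomial NumberField
open Pool.Agent.Y674.HY

/-- a finite Galois subfield of `ℂ` containing finitely many algebraic numbers -/
theorem exists_gal (T : Finset ℂ) (hT : ∀ t ∈ T, IsIntegral ℚ t) :
    ∃ (K : IntermediateField ℚ ℂ) (_ : FiniteDimensional ℚ K) (_ : IsGalois ℚ K),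
      ∀ t ∈ T, t ∈ K := by
  classical
  set p : ℚ[X] := ∏ t ∈ T, minpoly ℚ t with hp
  have hp0 : p ≠ 0 := Finset.prod_ne_zero_iff.2 fun t ht => minpoly.ne_zero (hT t ht)
  set K : IntermediateField ℚ ℂ := IntermediateField.adjoin ℚ (p.rootSet ℂ) with hK
  have hsf : p.IsSplittingField ℚ K :=
    IntermediateField.adjoin_rootSet_isSplittingField (IsAlgClosed.splits _)
  have hfin : FiniteDimensional ℚ K := Polynomial.IsSplittingField.finiteDimensional K p
  have hnorm : Normal ℚ K := Normal.of_isSplittingField p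
  have hgal : IsGalois ℚ K := ⟨⟩
  refine ⟨K, hfin, hgal, fun t ht => ?_⟩
  apply IntermediateField.subset_adjoin
  rw [Polynomial.mem_rootSet]
  refine ⟨hp0, ?_⟩
  rw [hp, map_prod]
  exact Finset.prod_eq_zero ht (minpoly.aeval ℚ t)

/-- an embedding of a number field lands in a subfield containing the image of a primitive
element -/
theorem mem_of_prim {F : Type} [Field F] [NumberField F] (τ : F →+* ℂ) (a : F)
    (ha : IntermediateField.adjoin ℚ {a} = ⊤) (K : IntermediateField ℚ ℂ) (hK : τ a ∈ K) (x : F) :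
    τ x ∈ K := by
  let ρ' : F →ₐ[ℚ] ℂ := τ.toRatAlgHom
  have h4 : x ∈ IntermediateField.comap ρ' K := by
    have h5 : IntermediateField.adjoin ℚ {a} ≤ IntermediateField.comap ρ' K := by
      rw [IntermediateField.adjoin_simple_le_iff]
      exact hK
    rw [ha] at h5
    exact h5 trivial
  exact h4

theorem mem_Rt {h : ℤ[X]} (h0 : h ≠ 0) (s : ℂ) : s ∈ Rt h ↔ aeval s h = 0 := by
  rw [Pool.Agent.Y961.HY.Rt_eq, Pool.Agent.Y961.HY.mem_RtΩ h0, Polynomial.aeval_def,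
    Polynomial.eval_map]
  rfl

/-- sign -/
theorem sq_sign {L : Type} [Field L] {a b : L} (h : a ^ 2 = b ^ 2) :
    ∃ t : ℤˣ, a = ((t : ℤ) : L) * b := by
  rcases sq_eq_sq_iff_eq_or_eq_neg.1 h with h | h
  · exact ⟨1, by simp [h]⟩
  · exact ⟨-1, by simp [h]⟩

theorem unit_inj {L : Type} [Field L] [CharZero L] {a b : ℤˣ} {x : L} (hx : x ≠ 0)
    (h : ((a : ℤ) : L) * x = ((b : ℤ) : L) * x) : a = b := by
  have h1 := mul_right_cancel₀ hx h
  exact Units.ext (Int.cast_injective h1)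

/-- the main argument, inside a Galois field `L` -/
theorem core (e : ℕ) (h : ℤ[X]) (hm : h.Monic) (hd : h.natDegree = e)
    (hs : (h.map (Int.castRingHom ℚ)).Separable) (B : ℝ) (hB : ∀ r ∈ Rt h, ‖r‖ ≤ B) (U : ℤ)
    (hU : B < U) (K : Type) [Field K] [NumberField K] (D : K) (ρ : K[X])
    (hdvd : h.map (Int.castRingHom K) ∣ C D * ρ ^ 2 - (C (U : K) - X))
    (θ : ℂ → ℂ) (hθ : ∀ r ∈ Rt h, θ r ^ 2 = 4 * U - 4 * r)
    (L : Type) [Field L] [NumberField L] [IsGalois ℚ L] (ψ : L →+* ℂ)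
    (ha : ∀ r ∈ Rt h, ∃ x : L, ψ x = r) (hb : ∀ r ∈ Rt h, ∃ x : L, ψ x = θ r)
    (τ : K →+* L) (δ : L) (hδ : δ ^ 2 = 4 * τ D) :
    ∃ (z s : Fin e → 𝓞 L) (π : (L ≃ₐ[ℚ] L) → Fin e → Fin e) (ξ : (L ≃ₐ[ℚ] L) → Fin e → ℤˣ)
    (S : Subgroup (L ≃ₐ[ℚ] L)) (ε₀ : Fin e → ℤˣ),
    Function.Injective z ∧ (∀ i, ψ (z i : L) ∈ Rt h) ∧
    (∀ (σ : L →+* ℂ) (i : Fin e), ‖σ (z i : L)‖ ≤ B) ∧
    (∀ i, s i ^ 2 = ((4 * U : ℤ) : 𝓞 L) - 4 * z i) ∧
    (∀ i, ψ (s i : L) = θ (ψ (z i : L))) ∧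
    (∀ g i, g (z i : L) = (z (π g i) : L)) ∧
    (∀ g i, g (s i : L) = ((ξ g i : ℤ) : L) * (s (π g i) : L)) ∧
    (∀ g h i, π (g * h) i = π g (π h i)) ∧ (∀ g h i, ξ (g * h) i = ξ h i * ξ g (π h i)) ∧
    (∀ i, π 1 i = i) ∧ S.index ≤ Module.finrank ℚ K ∧
    (∀ g ∈ S, (∀ i, ε₀ i * ξ g i = ε₀ (π g i)) ∨ (∀ i, ε₀ i * ξ g i = -ε₀ (π g i))) := by
  classical
  have h0 : h ≠ 0 := hm.ne_zero
  have hcard : (Rt h).card = e := by
    rw [Pool.Agent.Y961.HY.Rt_eq, Pool.Agent.Y961.HY.card_RtΩ hs, hd]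
  have hψ : Function.Injective ψ := ψ.injective
  let en : Rt h ≃ Fin e := Finset.equivFinOfCardEq hcard
  -- the roots in `L`
  have hroot : ∀ x : L, aeval x h = 0 ↔ ψ x ∈ Rt h := by
    intro x
    rw [mem_Rt h0]
    have h1 : aeval (ψ x) h = ψ (aeval x h) := by
      exact Polynomial.aeval_algHom_apply (ψ.toIntAlgHom) x h
    rw [h1, map_eq_zero_iff ψ hψ]
  choose fz hfz using ha
  choose fs hfs using hb
  let z0 : Fin e → L := fun i => fz (en.symm i).1 (en.symm i).2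
  let s0 : Fin e → L := fun i => fs (en.symm i).1 (en.symm i).2
  have hz0 : ∀ i, ψ (z0 i) = ((en.symm i : Rt h) : ℂ) := fun i => hfz _ _
  have hs0 : ∀ i, ψ (s0 i) = θ ((en.symm i : Rt h) : ℂ) := fun i => hfs _ _
  have hz0r : ∀ i, ψ (z0 i) ∈ Rt h := fun i => by
    rw [hz0]
    exact (en.symm i).2
  have hz0i : Function.Injective z0 := by
    intro i j hij
    have h1 := congrArg ψ hij
    rw [hz0, hz0] at h1
    exact en.symm.injective (Subtype.ext h1)
  have hz0a : ∀ i, aeval (z0 i) h = 0 := fun i => (hroot _).2 (hz0r i)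
  have hfind : ∀ x : L, aeval x h = 0 → ∃ i, x = z0 i := by
    intro x hx
    have h1 := (hroot x).1 hx
    refine ⟨en ⟨ψ x, h1⟩, hψ ?_⟩
    rw [hz0]
    simp
  have hzint : ∀ i, IsIntegral ℤ (z0 i) := fun i => ⟨h, hm, hz0a i⟩
  have hs2 : ∀ i, s0 i ^ 2 = 4 * (U : L) - 4 * z0 i := by
    intro i
    apply hψ
    have e4 : ψ (4 : L) = 4 := map_ofNat ψ 4
    rw [map_pow, hs0, hθ _ (en.symm i).2, map_sub, map_mul, map_mul, hz0, map_intCast, e4]
  have hsint : ∀ i, IsIntegral ℤ (s0 i) := by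
    intro i
    apply IsIntegral.of_pow (n := 2) (by norm_num)
    rw [hs2]
    apply IsIntegral.sub
    · have h1 : (4 * (U : L)) = ((4 * U : ℤ) : L) := by push_cast; ring
      rw [h1]
      exact isIntegral_algebraMap (R := ℤ) (A := L) (x := 4 * U)
    · have h1 : (4 : L) = ((4 : ℤ) : L) := by norm_num
      rw [h1]
      exact (isIntegral_algebraMap (R := ℤ) (A := L) (x := 4)).mul (hzint i)
  have hsne : ∀ i, s0 i ≠ 0 := by
    intro i hi
    have h1 := hs2 i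
    rw [hi] at h1
    have h2 : (U : L) = z0 i := by
      have h3 : (4 : L) ≠ 0 := by norm_num
      apply mul_left_cancel₀ h3
      linear_combination -h1
    have h3 : (U : ℂ) = ψ (z0 i) := by
      rw [← h2, map_intCast]
    have h4 := hB _ (hz0r i)
    rw [← h3] at h4
    have h5 : ‖(U : ℂ)‖ = |(U : ℝ)| := by
      rw [← Complex.ofReal_intCast, Complex.norm_real, Real.norm_eq_abs]
    rw [h5] at h4
    exact absurd (lt_of_lt_of_le hU (le_abs_self _)) (not_lt.2 h4)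
  -- the action
  have hπ : ∀ (g : L ≃ₐ[ℚ] L) (i : Fin e), ∃ j, g (z0 i) = z0 j := by
    intro g i
    apply hfind
    have h1 : aeval (g (z0 i)) h = g (aeval (z0 i) h) := by
      exact Polynomial.aeval_algHom_apply ((g : L →+* L).toIntAlgHom) (z0 i) h
    rw [h1, hz0a, map_zero]
  choose π hπ using hπ
  have hξ : ∀ (g : L ≃ₐ[ℚ] L) (i : Fin e), ∃ t : ℤˣ, g (s0 i) = ((t : ℤ) : L) * s0 (π g i) := by
    intro g i
    apply sq_sign
    have e4 : g (4 : L) = 4 := map_ofNat g 4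
    rw [← map_pow, hs2, hs2, map_sub, map_mul, map_mul, hπ, map_intCast, e4]
  choose ξ hξ using hξ
  have hππ : ∀ g h i, π (g * h) i = π g (π h i) := by
    intro g h i
    apply hz0i
    rw [← hπ, ← hπ, ← hπ]
    rfl
  have hξξ : ∀ g h i, ξ (g * h) i = ξ h i * ξ g (π h i) := by
    intro g h i
    apply unit_inj (hsne (π (g * h) i))
    rw [← hξ]
    have h1 : (g * h) (s0 i) = g (h (s0 i)) := rfl
    rw [h1, hξ h i, map_mul, hξ g, hππ, map_intCast]
    push_cast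
    ring
  -- the subgroup
  let τ' : K →ₐ[ℚ] L := τ.toRatAlgHom
  let F : IntermediateField ℚ L := τ'.fieldRange
  have hF : F.fixingSubgroup.index ≤ Module.finrank ℚ K := by
    rw [← IntermediateField.finrank_eq_fixingSubgroup_index]
    exact (τ'.equivFieldRange.toLinearEquiv.finrank_eq).symm.le
  -- the pattern of `ρ`
  have hev : ∀ i, τ D * ((ρ.map τ).eval (z0 i)) ^ 2 = (U : L) - z0 i := by
    intro i
    have h1 : (h.map (Int.castRingHom L)) ∣ C (τ D) * (ρ.map τ) ^ 2 - (C (U : L) - X) := by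
      have h2 := Polynomial.map_dvd τ hdvd
      rw [Polynomial.map_map, RingHom.ext_int (τ.comp (Int.castRingHom K)) (Int.castRingHom L)] at h2
      simpa using h2
    have h2 : (h.map (Int.castRingHom L)).eval (z0 i) = 0 := by
      rw [Polynomial.eval_map]
      exact hz0a i
    have h3 := Polynomial.eval_dvd (x := z0 i) h1
    rw [h2, zero_dvd_iff] at h3
    simp only [eval_sub, eval_mul, eval_C, eval_pow, eval_X] at h3
    linear_combination h3
  have hε : ∀ i, ∃ t : ℤˣ, δ * (ρ.map τ).eval (z0 i) = ((t : ℤ) : L) * s0 i := by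
    intro i
    apply sq_sign
    rw [hs2, mul_pow, hδ]
    linear_combination 4 * hev i
  choose ε hε using hε
  have hgρ : ∀ g ∈ F.fixingSubgroup, ∀ i,
      g ((ρ.map τ).eval (z0 i)) = (ρ.map τ).eval (z0 (π g i)) := by
    intro g hg i
    have h1 : ∀ a : K, g (τ a) = τ a := by
      intro a
      exact (IntermediateField.mem_fixingSubgroup_iff F g).1 hg (τ a) ⟨a, rfl⟩
    have h2 : ((g : L →+* L).comp τ) = τ := RingHom.ext h1
    have h3 : g ((ρ.map τ).eval (z0 i)) = ((ρ.map τ).map (g : L →+* L)).eval (g (z0 i)) := by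
      exact (Polynomial.eval_map_apply (p := ρ.map τ) (g : L →+* L) (z0 i)).symm
    rw [h3, Polynomial.map_map, h2, hπ]
  have hgδ : ∀ g ∈ F.fixingSubgroup, ∃ t : ℤˣ, g δ = ((t : ℤ) : L) * δ := by
    intro g hg
    apply sq_sign
    have h1 : g (τ D) = τ D :=
      (IntermediateField.mem_fixingSubgroup_iff F g).1 hg (τ D) ⟨D, rfl⟩
    have e4 : g (4 : L) = 4 := map_ofNat g 4
    rw [← map_pow, hδ, map_mul, h1, e4]
  have hfin : ∀ g ∈ F.fixingSubgroup, ∃ t : ℤˣ, ∀ i, ε i * ξ g i = t * ε (π g i) := by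
    intro g hg
    obtain ⟨t, ht⟩ := hgδ g hg
    refine ⟨t, fun i => ?_⟩
    apply unit_inj (hsne (π g i))
    have h1 := congrArg g (hε i)
    rw [map_mul, map_mul, ht, hgρ g hg, hξ, map_intCast] at h1
    have h2 := hε (π g i)
    push_cast
    linear_combination ((t : ℤ) : L) * h2 - h1
  have hzO : ∀ i, ∃ x : 𝓞 L, (x : L) = z0 i := fun i => ⟨⟨z0 i, hzint i⟩, rfl⟩
  have hsO : ∀ i, ∃ x : 𝓞 L, (x : L) = s0 i := fun i => ⟨⟨s0 i, hsint i⟩, rfl⟩
  choose z hz using hzO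
  choose s hsz using hsO
  refine ⟨z, s, π, ξ, F.fixingSubgroup, ε, ?_, ?_, ?_, ?_, ?_, ?_, ?_, hππ, hξξ, ?_, hF, ?_⟩
  · intro i j hij
    apply hz0i
    rw [← hz, ← hz, hij]
  · intro i
    rw [hz]
    exact hz0r i
  · intro σ i
    rw [hz]
    apply hB
    rw [mem_Rt h0]
    have h1 : aeval (σ (z0 i)) h = σ (aeval (z0 i) h) := by
      exact Polynomial.aeval_algHom_apply (σ.toIntAlgHom) (z0 i) h
    rw [h1, hz0a, map_zero]
  · intro i
    apply RingOfIntegers.ext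
    have h1 := hs2 i
    rw [← hz, ← hsz] at h1
    have e4 : algebraMap (𝓞 L) L 4 = 4 := map_ofNat (algebraMap (𝓞 L) L) 4
    have h2 : algebraMap (𝓞 L) L (s i ^ 2) =
        algebraMap (𝓞 L) L (((4 * U : ℤ) : 𝓞 L) - 4 * z i) := by
      rw [map_pow, map_sub, map_mul, map_intCast, e4, h1]
      push_cast
      ring
    exact h2
  · intro i
    rw [hsz, hz, hs0, hz0]
  · intro g i
    rw [hz, hz]
    exact hπ g i
  · intro g i
    rw [hsz, hsz]
    exact hξ g i
  · intro i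
    apply hz0i
    rw [← hπ]
    rfl
  · intro g hg
    obtain ⟨t, ht⟩ := hfin g hg
    rcases Int.units_eq_one_or t with rfl | rfl
    · exact Or.inl fun i => by rw [ht, one_mul]
    · exact Or.inr fun i => by rw [ht, neg_one_mul]

theorem gala : Pool.Agent.Y674.HY.GALA := by
  classical
  intro e _ h hm hd hs B hB U hU K _ _ D ρ _ hdvd θ hθ
  obtain ⟨a, ha⟩ := Field.exists_primitive_element ℚ K
  obtain ⟨τ0⟩ : Nonempty (K →+* ℂ) := inferInstance
  obtain ⟨δ0, hδ0⟩ : ∃ δ0 : ℂ, δ0 ^ 2 = 4 * τ0 D := IsAlgClosed.exists_pow_nat_eq _ (by norm_num)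
  have h0 : h ≠ 0 := hm.ne_zero
  have hτint : ∀ x : K, IsIntegral ℚ (τ0 x) := fun x =>
    (IsIntegral.of_finite ℚ x).map τ0.toRatAlgHom
  have hrint : ∀ r ∈ Rt h, IsIntegral ℚ r := by
    intro r hr
    have h1 : IsIntegral ℤ r := ⟨h, hm, (mem_Rt h0 r).1 hr⟩
    exact h1.tower_top
  have hQ : ∀ q : ℚ, IsIntegral ℚ (q : ℂ) := fun q =>
    isIntegral_algebraMap (R := ℚ) (A := ℂ) (x := q)
  have h4 : IsIntegral ℚ (4 : ℂ) := by simpa using hQ 4
  let T : Finset ℂ := Rt h ∪ (Rt h).image θ ∪ {τ0 a, δ0}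
  obtain ⟨L, hfd, hgal, hL⟩ := exists_gal T (by
    intro t ht
    simp only [T, Finset.mem_union, Finset.mem_image, Finset.mem_insert,
      Finset.mem_singleton] at ht
    rcases ht with (ht | ⟨r, hr, rfl⟩) | rfl | rfl
    · exact hrint t ht
    · apply IsIntegral.of_pow (n := 2) (by norm_num)
      rw [hθ r hr]
      apply IsIntegral.sub
      · apply h4.mul
        simpa using hQ U
      · exact h4.mul (hrint r hr)
    · exact hτint a
    · apply IsIntegral.of_pow (n := 2) (by norm_num)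
      rw [hδ0]
      exact h4.mul (hτint D))
  have hτL : ∀ x : K, τ0 x ∈ L := mem_of_prim τ0 a ha L (hL _ (by simp [T]))
  have : NumberField L := ⟨⟩
  obtain ⟨z, s, π, ξ, S, ε, hall⟩ := core e h hm hd hs B hB U hU K D ρ hdvd θ hθ L
    (algebraMap L ℂ) (fun r hr => ⟨⟨r, hL r (by simp [T, hr])⟩, rfl⟩)
    (fun r hr => ⟨⟨θ r, hL (θ r) (by
      simp only [T, Finset.mem_union, Finset.mem_image]
      exact Or.inl (Or.inr ⟨r, hr, rfl⟩))⟩, rfl⟩)
    (RingHom.codRestrict τ0 L hτL) ⟨δ0, hL δ0 (by simp [T])⟩ (by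
      apply Subtype.ext
      change δ0 ^ 2 = _
      rw [hδ0]
      rfl)
  exact ⟨L, inferInstance, inferInstance, hgal, algebraMap L ℂ, z, s, π, ξ, S, ε, hall⟩

end Pool.Agent.Y109.HY
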